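import Pool.Agent.Q107.Assoc.Snake

/-!
# The rotation graph is Hamiltonian
-/

set_option autoImplicit false

namespace Q107.Assoc

open BT

/-- all trees with `n` nodes -/
def allT : ℕ → List BT
  | 0 => [leaf]
  | n + 1 => (allT n).flatMap fib

lemma mem_allT (n : ℕ) : ∀ u, u ∈ allT n ↔ u.size = n := by
  induction n with
  | zero =>
    intro u
    cases u with
    | leaf => simp [allT, BT.size]
    | node l r => simp [allT, BT.size]
  | succ n ih =>
    intro u
    simp only [allT, List.mem_flatMap, mem_fib]
    constructor
    · rintro ⟨t, ht, h1, h2⟩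
      obtain ⟨h5, h6⟩ := ins_par u h1
      rw [ih, ← h2] at ht
      rw [← h6, size_ins _ _ h5, ht]
    · intro h
      have h4 : u ≠ leaf := by
        rintro rfl
        simp [BT.size] at h
      refine ⟨u.par, ?_, h4, rfl⟩
      obtain ⟨h5, h6⟩ := ins_par u h4
      rw [← h6, size_ins _ _ h5] at h
      rw [ih]
      omega

/-- a check for rotations -/
def rotB : BT → BT → Bool
  | node l r, node l' r' =>
    (match l with
      | node a b => (decide (l' = a) && decide (r' = node b r))
      | leaf => false) ||
    (decide (r = r') && rotB l l') || (decide (l = l') && rotB r r')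
  | _, _ => false

lemma rot_of_rotB : ∀ t t' : BT, rotB t t' = true → Rot t t' := by
  intro t
  induction t with
  | leaf => intro t' h; simp [rotB] at h
  | node l r ihl ihr =>
    intro t' h
    cases t' with
    | leaf => simp [rotB] at h
    | node l' r' =>
      simp only [rotB, Bool.or_eq_true, Bool.and_eq_true, decide_eq_true_eq] at h
      rcases h with (h | ⟨rfl, h⟩) | ⟨rfl, h⟩
      · cases l with
        | leaf => simp at h
        | node a b =>
          simp only [Bool.and_eq_true, decide_eq_true_eq] at h
          obtain ⟨rfl, rfl⟩ := h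
          exact Rot.rot _ _ _
      · exact Rot.left _ (ihl _ h)
      · exact Rot.right _ (ihr _ h)

/-- a check for adjacency -/
def adjB (t t' : BT) : Bool := rotB t t' || rotB t' t

lemma adj_of_adjB {t t' : BT} (h : adjB t t' = true) : Adj t t' := by
  rw [adjB, Bool.or_eq_true] at h
  rcases h with h | h
  · exact Or.inl (rot_of_rotB _ _ h)
  · exact Or.inr (rot_of_rotB _ _ h)

/-- a Hamiltonian cycle for four nodes -/
def l4 : List BT :=
  [
    node leaf (node leaf (node leaf (node leaf leaf))),
    node leaf (node (node leaf leaf) (node leaf leaf)),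
    node (node leaf (node leaf leaf)) (node leaf leaf),
    node (node (node leaf (node leaf leaf)) leaf) leaf,
    node (node leaf (node (node leaf leaf) leaf)) leaf,
    node leaf (node (node (node leaf leaf) leaf) leaf),
    node leaf (node (node leaf (node leaf leaf)) leaf),
    node (node leaf (node leaf (node leaf leaf))) leaf,
    node (node (node leaf leaf) (node leaf leaf)) leaf,
    node (node (node (node leaf leaf) leaf) leaf) leaf,
    node (node (node leaf leaf) leaf) (node leaf leaf),
    node (node leaf leaf) (node leaf (node leaf leaf)),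
    node (node leaf leaf) (node (node leaf leaf) leaf),
    node leaf (node leaf (node (node leaf leaf) leaf))]

lemma hc4 : HC 4 l4 := by
  have h1 : (∀ t ∈ l4, t ∈ allT 4) ∧ (∀ t ∈ allT 4, t ∈ l4) := by decide +kernel
  refine ⟨by decide +kernel, fun t => ?_, ?_, ?_⟩
  · rw [← mem_allT]
    exact ⟨h1.1 t, h1.2 t⟩
  · have : l4.IsChain (fun a b => adjB a b = true) := by decide +kernel
    exact this.imp fun a b h => adj_of_adjB h
  · intro a ha b hb
    simp only [l4, List.getLast?_cons_cons, List.getLast?_singleton, Option.mem_def,
      Option.some.injEq, List.head?_cons] at ha hb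
    rw [← ha, ← hb]
    apply adj_of_adjB
    decide +kernel

theorem hcp5 : HCP 5 := by
  have h1 := hc_even hc4 (by decide)
  refine hcp_of_fib (k := 2) h1 (by omega) (fib_infix_snake _ _ ?_)
  rw [hc4.mem]
  rfl

/-- the rotation graph has a Hamiltonian cycle of the special form -/
theorem hcp {n : ℕ} (hn : 5 ≤ n) : HCP n := by
  induction n, hn using Nat.le_induction with
  | base => exact hcp5
  | succ n hn ih => exact hcp_succ hn ih

end Q107.Assoc
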