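import Pool.Agent.Q107.Assoc.Lengths

/-!
# Counting the cycle lengths of the rotation graph
-/

set_option autoImplicit false

namespace Q107.Assoc

open BT

lemma Sp.le {n L : ℕ} (h : Sp n L) : 3 ≤ L ∧ L ≤ cn n := by
  obtain ⟨l, h1, h2, h3, h4, h5⟩ := h
  refine ⟨h5, ?_⟩
  rw [← h4]
  exact (h1.subperm fun t ht => (mem_allT n t).2 (h2 t ht)).length_le

/-- the set of cycle lengths -/
def SS (n : ℕ) : Set ℕ := {L | Sp n L}

lemma SS_finite (n : ℕ) : (SS n).Finite :=
  (Set.finite_Icc 3 (cn n)).subset fun _ hL => Set.mem_Icc.2 (Sp.le hL)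

lemma count_step {n : ℕ} (hn : 5 ≤ n) :
    (SS n).ncard + cn (n + 1) ≤ (SS (n + 1)).ncard + cn n + 6 * n + 3 := by
  have h1 : SS n ∪ Set.Icc (cn n + 2 * n + 2) (cn (n + 1) - (4 * n + 2)) ⊆ SS (n + 1) := by
    rintro L (hL | hL)
    · exact Sp.succ hL
    · rw [Set.mem_Icc] at hL
      exact sp_range hn hL.1 (by omega)
  have h2 : Disjoint (SS n) (Set.Icc (cn n + 2 * n + 2) (cn (n + 1) - (4 * n + 2))) := by
    rw [Set.disjoint_left]
    intro L hL hL'
    rw [Set.mem_Icc] at hL'
    have := (Sp.le hL).2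
    omega
  have h3 := Set.ncard_le_ncard h1 (SS_finite (n + 1))
  rw [Set.ncard_union_eq h2 (SS_finite n) (Set.finite_Icc _ _)] at h3
  have h4 : (Set.Icc (cn n + 2 * n + 2) (cn (n + 1) - (4 * n + 2))).ncard =
      cn (n + 1) - (4 * n + 2) + 1 - (cn n + 2 * n + 2) := by
    rw [Set.ncard_eq_toFinset_card']
    simp
  omega

theorem count {n : ℕ} (hn : 5 ≤ n) : cn n ≤ (SS n).ncard + 3 * n ^ 2 := by
  induction n, hn using Nat.le_induction with
  | base =>
    have : cn 5 = 42 := by decide +kernel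
    omega
  | succ n hn ih =>
    have h := count_step hn
    have e : 3 * (n + 1) ^ 2 = 3 * n ^ 2 + 6 * n + 3 := by ring
    omega

lemma cn_grow (n : ℕ) : 2 ^ n ≤ cn (n + 1) := by
  induction n with
  | zero => decide
  | succ n ih =>
    have h : ∀ l : List BT, (∀ t ∈ l, 0 < t.sp) → 2 * l.length ≤ wt l := by
      intro l
      induction l with
      | nil => simp [wt]
      | cons t l ihl =>
        intro hl
        have h1 := ihl fun s hs => hl s (List.mem_cons_of_mem _ hs)
        have h2 := hl t List.mem_cons_self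
        rw [wt_cons, List.length_cons]
        omega
    have h1 := h (allT (n + 1)) fun t ht => sp_pos (by
      rw [mem_allT] at ht
      omega)
    rw [← cn_succ] at h1
    change 2 * cn (n + 1) ≤ cn (n + 2) at h1
    rw [pow_succ]
    change _ ≤ cn (n + 2)
    omega

end Q107.Assoc
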