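import Pool.Agent.Q107.Assoc.Base

/-!
# Cycle lengths in the rotation graph
-/

set_option autoImplicit false

namespace Q107.Assoc

open BT

/-- there is a path in `S` from `s` to `t` with `y` vertices -/
def PLen (S : Set BT) (s t : BT) (y : ℕ) : Prop :=
  ∃ l : List BT, l.Nodup ∧ (∀ v ∈ l, v ∈ S) ∧ l.IsChain Adj ∧ l.head? = some s ∧
    l.getLast? = some t ∧ l.length = y

lemma PLen.append {S S' : Set BT} {s t s' t' : BT} {y y' : ℕ} (h : PLen S s t y)
    (h' : PLen S' s' t' y') (hd : Disjoint S S') (hR : Adj t s') :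
    PLen (S ∪ S') s t' (y + y') := by
  obtain ⟨l, h1, h2, h3, h4, h5, h6⟩ := h
  obtain ⟨l', h1', h2', h3', h4', h5', h6'⟩ := h'
  refine ⟨l ++ l', ?_, ?_, ?_, ?_, ?_, ?_⟩
  · rw [List.nodup_append']
    refine ⟨h1, h1', ?_⟩
    intro x hx hx'
    exact Set.disjoint_left.1 hd (h2 x hx) (h2' x hx')
  · intro v hv
    rcases List.mem_append.1 hv with h | h
    · exact Or.inl (h2 v h)
    · exact Or.inr (h2' v h)
  · rw [List.isChain_append]
    refine ⟨h3, h3', ?_⟩
    intro x hx y hy
    rw [h5] at hx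
    rw [h4'] at hy
    simp only [Option.mem_def, Option.some.injEq] at hx hy
    rw [← hx, ← hy]
    exact hR
  · rw [List.head?_append, h4]
    rfl
  · rw [List.getLast?_append, h5']
    rfl
  · rw [List.length_append, h6, h6']

lemma PLen.mono {S S' : Set BT} {s t : BT} {y : ℕ} (h : PLen S s t y) (hS : S ⊆ S') :
    PLen S' s t y := by
  obtain ⟨l, h1, h2, h3⟩ := h
  exact ⟨l, h1, fun v hv => hS (h2 v hv), h3⟩

/-- the union of the fibres of the members of a list -/
def FS (l : List BT) : Set BT := {u | u ≠ leaf ∧ u.par ∈ l}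

lemma FS_append (l l' : List BT) : FS (l ++ l') = FS l ∪ FS l' := by
  ext u
  simp only [FS, Set.mem_ofPred_eq, Set.mem_union, List.mem_append]
  tauto

lemma FS_disjoint {l l' : List BT} (h : ∀ t ∈ l, t ∉ l') : Disjoint (FS l) (FS l') := by
  rw [Set.disjoint_left]
  rintro u ⟨_, h2⟩ ⟨_, h4⟩
  exact h _ h2 h4

/-- a rung between two fibres -/
def Rung (t t' : BT) (i j : ℕ) : Prop := i ≤ t.sp ∧ j ≤ t'.sp ∧ Adj (t.ins i) (t'.ins j)

lemma Rung.symm {t t' : BT} {i j : ℕ} (h : Rung t t' i j) : Rung t' t j i :=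
  ⟨h.2.1, h.1, h.2.2.symm⟩

lemma rung_zero {t t' : BT} (h : Adj t t') : Rung t t' 0 0 :=
  ⟨Nat.zero_le _, Nat.zero_le _, adj_ins_zero h⟩

lemma rung_full {t t' : BT} (h : Adj t t') : Rung t t' t.sp t'.sp :=
  ⟨le_refl _, le_refl _, adj_ins_last h⟩

lemma up_path (t : BT) (i : ℕ) (hi : i ≤ t.sp) : PLen (FS [t]) (t.ins 0) (t.ins i) (i + 1) := by
  refine ⟨(List.range (i + 1)).map t.ins, ?_, ?_, ?_, ?_, ?_, ?_⟩
  · apply List.Nodup.map_on _ List.nodup_range
    intro a ha b hb hab
    rw [List.mem_range] at ha hb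
    rw [← idx_ins t a (by omega), ← idx_ins t b (by omega), hab]
  · intro v hv
    rw [List.mem_map] at hv
    obtain ⟨a, ha, rfl⟩ := hv
    rw [List.mem_range] at ha
    exact ⟨ins_ne_leaf t a, by rw [par_ins t a (by omega)]; simp⟩
  · rw [List.isChain_map, List.isChain_range_succ]
    intro a ha
    exact adj_ins_succ t a (by omega)
  · simp [List.range_succ_eq_map]
  · simp [List.range_succ]
  · simp

lemma PLen.reverse {S : Set BT} {s t : BT} {y : ℕ} (h : PLen S s t y) : PLen S t s y := by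
  obtain ⟨l, h1, h2, h3, h4, h5, h6⟩ := h
  refine ⟨l.reverse, List.nodup_reverse.2 h1, by simpa using h2, ?_, by simp [h5],
    by simp [h4], by simp [h6]⟩
  rw [List.isChain_reverse]
  exact h3.imp fun a b hab => hab.symm

lemma pair_path {t t' : BT} (hne : t ≠ t') {i j : ℕ} (h : Rung t t' i j) :
    PLen (FS [t, t']) (t.ins 0) (t'.ins 0) (i + j + 2) := by
  have h1 := up_path t i h.1
  have h2 := (up_path t' j h.2.1).reverse
  have h3 := h1.append h2 (FS_disjoint (by simpa using hne)) h.2.2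
  rw [← FS_append] at h3
  have e : i + 1 + (j + 1) = i + j + 2 := by omega
  rw [e] at h3
  exact h3

/-- paths over lists (possibly empty) -/
def LP (l : List BT) (z : ℕ) : Prop :=
  (l = [] ∧ z = 0) ∨ ∃ a ∈ l.head?, ∃ b ∈ l.getLast?, PLen (FS l) (a.ins 0) (b.ins 0) z

lemma LP.append {l l' : List BT} {z z' : ℕ} (h : LP l z) (h' : LP l' z')
    (hc : (l ++ l').IsChain Adj) (hn : (l ++ l').Nodup) : LP (l ++ l') (z + z') := by
  rcases h with ⟨rfl, rfl⟩ | ⟨a, ha, b, hb, h⟩
  · simpa using h'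
  rcases h' with ⟨rfl, rfl⟩ | ⟨a', ha', b', hb', h'⟩
  · right
    exact ⟨a, by simpa using ha, b, by simpa using hb, by simpa using h⟩
  right
  rw [List.isChain_append] at hc
  rw [List.nodup_append'] at hn
  refine ⟨a, ?_, b', ?_, ?_⟩
  · rw [List.head?_append, ha]; rfl
  · rw [List.getLast?_append, hb']; rfl
  · rw [FS_append]
    refine h.append h' (FS_disjoint fun t ht ht' => hn.2.2 ht ht') ?_
    exact adj_ins_zero (hc.2.2 b hb a' ha')

lemma LP.single (t : BT) : LP [t] 1 := by
  right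
  exact ⟨t, rfl, t, rfl, up_path t 0 (Nat.zero_le _)⟩

lemma LP.pair {t t' : BT} (hne : t ≠ t') {i j : ℕ} (h : Rung t t' i j) :
    LP [t, t'] (i + j + 2) := by
  right
  exact ⟨t, rfl, t', rfl, pair_path hne h⟩

/-- the largest length -/
def W : List BT → ℕ
  | [] => 0
  | [_] => 1
  | t :: t' :: l => t.sp + t'.sp + 2 + W l

lemma length_le_W : ∀ l : List BT, l.length ≤ W l
  | [] => by simp [W]
  | [_] => by simp [W]
  | t :: t' :: l => by
    have := length_le_W l
    simp only [W, List.length_cons]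
    omega

lemma lp_min : ∀ (l : List BT), l.Nodup → l.IsChain Adj → LP l l.length
  | [], _, _ => Or.inl ⟨rfl, rfl⟩
  | t :: l, hn, hc => by
    have h := (LP.single t).append (lp_min l (List.nodup_cons.1 hn).2 hc.tail)
      (by simpa using hc) (by simpa using hn)
    rw [add_comm] at h
    exact h

lemma lp_max : ∀ (l : List BT), l.Nodup → l.IsChain Adj → LP l (W l)
  | [], _, _ => Or.inl ⟨rfl, rfl⟩
  | [t], _, _ => LP.single t
  | t :: t' :: l, hn, hc => by
    have hc' := hc
    rw [List.isChain_cons_cons] at hc'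
    have hn' := hn
    rw [List.nodup_cons, List.nodup_cons] at hn'
    have hne : t ≠ t' := fun h => hn'.1 (h ▸ List.mem_cons_self)
    have h := (LP.pair hne (rung_full hc'.1)).append (lp_max l hn'.2.2 hc'.2.tail)
      (by simpa using hc) (by simpa using hn)
    exact h

lemma rung_dense {t t' : BT} (h : Adj t t') (x : ℕ) (h1 : 2 ≤ x) (h2 : x ≤ t.sp + t'.sp + 2) :
    ∃ i j, Rung t t' i j ∧ i + j + 2 ≤ x ∧ x < i + j + 2 + 3 := by
  have key : ∀ {t t' : BT}, Rot t t' → x ≤ t.sp + t'.sp + 2 →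
      ∃ i j, Rung t t' i j ∧ i + j + 2 ≤ x ∧ x < i + j + 2 + 3 := by
    intro t t' h h2
    rcases rungs h with ⟨h3, h4⟩ | ⟨h3, j, h4, h5, h6⟩
    · exact ⟨(x - 2) / 2, (x - 2) / 2, ⟨by omega, by omega, h4 _ (by omega)⟩, by omega, by omega⟩
    · by_cases hx : x < 2 * j + 5
      · by_cases hx' : x ≤ 2 * j + 2
        · exact ⟨(x - 2) / 2, (x - 2) / 2, ⟨by omega, by omega, h5 _ (by omega)⟩, by omega,
            by omega⟩
        · exact ⟨j, j, ⟨by omega, by omega, h5 _ (le_refl _)⟩, by omega, by omega⟩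
      · exact ⟨(x - 3) / 2, (x - 3) / 2 + 1, ⟨by omega, by omega, h6 _ (by omega) (by omega)⟩,
          by omega, by omega⟩
  rcases h with h | h
  · exact key h h2
  · obtain ⟨i, j, h3, h4⟩ := key h (by omega)
    exact ⟨j, i, h3.symm, by omega⟩

lemma lp_dense : ∀ (l : List BT), l.Nodup → l.IsChain Adj → ∀ x, l.length ≤ x → x ≤ W l →
    ∃ y, LP l y ∧ y ≤ x ∧ x < y + 3
  | [], _, _, x, _, h2 => ⟨0, Or.inl ⟨rfl, rfl⟩, by omega, by simp only [W] at h2; omega⟩
  | [t], _, _, x, h1, h2 => ⟨1, LP.single t, by simpa using h1, by simp only [W] at h2; omega⟩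
  | t :: t' :: l, hn, hc, x, h1, h2 => by
    have hc' := hc
    rw [List.isChain_cons_cons] at hc'
    have hn' := hn
    rw [List.nodup_cons, List.nodup_cons] at hn'
    have hne : t ≠ t' := fun h => hn'.1 (h ▸ List.mem_cons_self)
    simp only [W] at h2
    simp only [List.length_cons] at h1
    by_cases hx : x ≤ t.sp + t'.sp + 2 + l.length
    · obtain ⟨i, j, h3, h4, h5⟩ := rung_dense hc'.1 (x - l.length) (by omega) (by omega)
      refine ⟨i + j + 2 + l.length, ?_, by omega, by omega⟩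
      exact (LP.pair hne h3).append (lp_min l hn'.2.2 hc'.2.tail) (by simpa using hc)
        (by simpa using hn)
    · obtain ⟨y, h3, h4, h5⟩ := lp_dense l hn'.2.2 hc'.2.tail (x - (t.sp + t'.sp + 2)) (by omega)
        (by omega)
      refine ⟨t.sp + t'.sp + 2 + y, ?_, by omega, by omega⟩
      exact (LP.pair hne (rung_full hc'.1)).append h3 (by simpa using hc) (by simpa using hn)

/-- the total weight of the fibres -/
def wt (l : List BT) : ℕ := (l.map fun t => t.sp + 1).sum

lemma wt_append (l l' : List BT) : wt (l ++ l') = wt l + wt l' := by simp [wt]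

lemma wt_cons (t : BT) (l : List BT) : wt (t :: l) = t.sp + 1 + wt l := by simp [wt]

lemma wt_le {n : ℕ} : ∀ l : List BT, (∀ t ∈ l, t.sp ≤ n) → wt l ≤ W l + n
  | [], _ => by simp [wt, W]
  | [t], h => by
    have := h t (by simp)
    simp only [wt, W, List.map_cons, List.map_nil, List.sum_cons, List.sum_nil]
    omega
  | t :: t' :: l, h => by
    have := wt_le l (fun s hs => h s (by simp [hs]))
    simp only [wt_cons, W]
    omega

/-- the cycle lengths of the rotation graph -/
def Sp (n L : ℕ) : Prop :=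
  ∃ l : List BT, l.Nodup ∧ (∀ t ∈ l, t.size = n) ∧ CL l ∧ l.length = L ∧ 3 ≤ L

lemma Sp.succ {n L : ℕ} (h : Sp n L) : Sp (n + 1) L := by
  obtain ⟨l, h1, h2, h3, h4, h5⟩ := h
  refine ⟨l.map fun t => t.ins 0, ?_, ?_, h3.map _ fun a b hab => adj_ins_zero hab,
    by simpa using h4, h5⟩
  · apply h1.map
    intro a b hab
    dsimp only at hab
    rw [← par_ins a 0 (Nat.zero_le _), hab, par_ins b 0 (Nat.zero_le _)]
  · intro t ht
    rw [List.mem_map] at ht
    obtain ⟨s, hs, rfl⟩ := ht
    rw [size_ins _ _ (Nat.zero_le _), h2 s hs]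

lemma sp_of_LP {n z : ℕ} {l : List BT} (hl : HC n l) (h : LP l z) (hz : 3 ≤ z) :
    Sp (n + 1) z := by
  rcases h with ⟨_, rfl⟩ | ⟨a, ha, b, hb, p, h1, h2, h3, h4, h5, h6⟩
  · omega
  · refine ⟨p, h1, ?_, ⟨h3, ?_⟩, h6, hz⟩
    · intro t ht
      obtain ⟨h7, h8⟩ := h2 t ht
      obtain ⟨h9, h10⟩ := ins_par t h7
      rw [hl.mem] at h8
      rw [← h10, size_ins _ _ h9, h8]
    · intro x hx y hy
      rw [h5] at hx
      rw [h4] at hy
      simp only [Option.mem_def, Option.some.injEq] at hx hy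
      rw [← hx, ← hy]
      exact adj_ins_zero (hl.cl.2 b hb a ha)

/-- a chain on which a function is not constant contains a place where it changes -/
lemma exists_change (f : BT → ℕ) : ∀ (l : List BT) (a b : BT), a ∈ l → b ∈ l → f a ≠ f b →
    ∃ l1 u u' l2, l = l1 ++ u :: u' :: l2 ∧ f u ≠ f u'
  | [], a, _, ha, _, _ => by simp at ha
  | [t], a, b, ha, hb, hab => by
    rw [List.mem_singleton] at ha hb
    exact absurd (by rw [ha, hb]) hab
  | t :: t' :: l, a, b, ha, hb, hab => by
    by_cases h : f t = f t'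
    · have key : ∀ c, c ∈ t :: t' :: l → ∃ c' ∈ t' :: l, f c' = f c := by
        intro c hc
        rcases List.mem_cons.1 hc with rfl | hc
        · exact ⟨t', by simp, h.symm⟩
        · exact ⟨c, hc, rfl⟩
      obtain ⟨a', ha', e1⟩ := key a ha
      obtain ⟨b', hb', e2⟩ := key b hb
      obtain ⟨l1, u, u', l2, h1, h2⟩ := exists_change f (t' :: l) a' b' ha' hb'
        (by rw [e1, e2]; exact hab)
      exact ⟨t :: l1, u, u', l2, by rw [h1]; rfl, h2⟩
    · exact ⟨[], t, t', l, rfl, h⟩

lemma change_rungs {t t' : BT} (h : Adj t t') (hne : t.sp ≠ t'.sp) :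
    ∃ i j i' j', Rung t t' i j ∧ Rung t t' i' j' ∧ i' + j' = i + j + 3 := by
  rcases h with h | h
  · rcases rungs h with ⟨h3, _⟩ | ⟨h3, j, h4, h5, h6⟩
    · exact absurd h3.symm hne
    · exact ⟨j, j, j + 1, j + 2, ⟨by omega, by omega, h5 _ (le_refl _)⟩,
        ⟨by omega, by omega, h6 _ (by omega) (by omega)⟩, by omega⟩
  · rcases rungs h with ⟨h3, _⟩ | ⟨h3, j, h4, h5, h6⟩
    · exact absurd h3 hne
    · exact ⟨j, j, j + 2, j + 1, Rung.symm ⟨by omega, by omega, h5 _ (le_refl _)⟩,
        Rung.symm ⟨by omega, by omega, h6 _ (by omega) (by omega)⟩, by omega⟩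

/-- the number of trees -/
def cn (n : ℕ) : ℕ := (allT n).length

lemma nodup_allT (n : ℕ) : (allT n).Nodup := by
  induction n with
  | zero => simp [allT]
  | succ n ih =>
    rw [allT, List.nodup_flatMap]
    refine ⟨fun t _ => nodup_fib t, ?_⟩
    refine ih.imp ?_
    intro a b hab
    rw [Function.onFun, List.disjoint_left]
    intro u hu hu'
    rw [mem_fib] at hu hu'
    exact hab (hu.2.symm.trans hu'.2)

lemma HC.perm {n : ℕ} {l : List BT} (h : HC n l) : l.Perm (allT n) := by
  rw [List.perm_ext_iff_of_nodup h.nodup (nodup_allT n)]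
  intro t
  rw [h.mem, mem_allT]

lemma cn_succ (n : ℕ) : cn (n + 1) = wt (allT n) := by
  simp only [cn, allT, wt, List.length_flatMap, length_fib]

lemma HC.length {n : ℕ} {l : List BT} (h : HC n l) : l.length = cn n := h.perm.length_eq

lemma HC.wt {n : ℕ} {l : List BT} (h : HC n l) : wt l = cn (n + 1) := by
  rw [cn_succ]
  exact (h.perm.map _).sum_eq

/-- the left comb -/
def lcomb : ℕ → BT
  | 0 => leaf
  | k + 1 => node (lcomb k) leaf

lemma lcomb_size (k : ℕ) : (lcomb k).size = k := by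
  induction k with
  | zero => rfl
  | succ k ih => simp [lcomb, BT.size, ih]

/-- all lengths between the numbers of trees, up to small errors, occur -/
theorem sp_range {n L : ℕ} (hn : 5 ≤ n) (h1 : cn n + 2 * n + 2 ≤ L)
    (h2 : L + 4 * n + 2 ≤ cn (n + 1)) : Sp (n + 1) L := by
  obtain ⟨x1, x2, x3, l, hl, h12, h23⟩ := hcp hn
  -- a place where the length of the spine changes
  have hm1 : comb n ∈ l := by
    have : comb n ∈ node x1 N1 :: node x2 N1 :: node x3 N1 :: l := by
      rw [hl.mem, comb_size]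
    have hne : ∀ x, comb n ≠ node x N1 := by
      intro x hx
      have := congrArg sp hx
      rw [comb_sp, special_sp] at this
      omega
    simpa [hne] using this
  have hm2 : lcomb n ∈ l := by
    have : lcomb n ∈ node x1 N1 :: node x2 N1 :: node x3 N1 :: l := by
      rw [hl.mem, lcomb_size]
    have hne : ∀ x, lcomb n ≠ node x N1 := by
      intro x hx
      obtain ⟨k, rfl⟩ : ∃ k, n = k + 1 := ⟨n - 1, by omega⟩
      simp [lcomb] at hx
    simpa [hne] using this
  have hdiff : (comb n).sp ≠ (lcomb n).sp := by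
    obtain ⟨k, rfl⟩ : ∃ k, n = k + 1 := ⟨n - 1, by omega⟩
    rw [comb_sp]
    simp only [lcomb, BT.sp]
    omega
  obtain ⟨l1, u, u', l2, hlu, hu⟩ := exists_change sp l _ _ hm1 hm2 hdiff
  -- the pieces
  have hnd := hl.nodup
  have hch := hl.cl.1
  have elist : node x1 N1 :: node x2 N1 :: node x3 N1 :: l =
      [node x1 N1, node x2 N1] ++ ((node x3 N1 :: l1) ++ ([u, u'] ++ l2)) := by
    rw [hlu]; simp
  have hwt := hl.wt
  have hlen := hl.length
  rw [elist] at hnd hch hwt hlen hl
  have hnd2 := (List.nodup_append'.1 hnd).2.1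
  have hch2 := (List.isChain_append.1 hch).2.1
  have hnd3 := (List.nodup_append'.1 hnd2).2.1
  have hch3 := (List.isChain_append.1 hch2).2.1
  have nL1 := (List.nodup_append'.1 hnd2).1
  have cL1 := (List.isChain_append.1 hch2).1
  have nl2 := (List.nodup_append'.1 hnd3).2.1
  have cl2 := (List.isChain_append.1 hch3).2.1
  have auu : Adj u u' := by
    have := (List.isChain_append.1 hch3).1
    rw [List.isChain_cons_cons] at this
    exact this.1
  have nuu : u ≠ u' := by
    intro h
    exact hu (by rw [h])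
  have nxx : node x1 N1 ≠ node x2 N1 := by
    have := (List.nodup_append'.1 hnd).1
    simpa using this
  obtain ⟨i, j, i', j', hr, hr', hij⟩ := change_rungs auu hu
  have hsz : ∀ t ∈ [node x1 N1, node x2 N1] ++ ((node x3 N1 :: l1) ++ ([u, u'] ++ l2)),
      t.sp ≤ n := by
    intro t ht
    rw [hl.mem] at ht
    rw [← ht]
    exact sp_le_size t
  have hui : u.sp ≤ n := hsz u (by simp)
  have hui' : u'.sp ≤ n := hsz u' (by simp)
  have w1 := wt_le (n := n) (node x3 N1 :: l1) (fun t ht => hsz t (by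
    simp only [List.mem_append, List.mem_cons] at ht ⊢; tauto))
  have w2 := wt_le (n := n) l2 (fun t ht => hsz t (by
    simp only [List.mem_append, List.mem_cons] at ht ⊢; tauto))
  rw [wt_append, wt_append, wt_append] at hwt
  have w3 : wt [node x1 N1, node x2 N1] = 6 := by simp [wt, special_sp]
  have w4 : wt [u, u'] = u.sp + 1 + (u'.sp + 1) := by simp [wt]
  simp only [List.length_append, List.length_cons, List.length_nil] at hlen
  have hi := hr.1
  have hj := hr.2.1
  -- the lengths of the two flexible paths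
  obtain ⟨z1, z2, p1, p2, p3, p4⟩ : ∃ z1 z2, LP (node x3 N1 :: l1) z1 ∧ LP l2 z2 ∧
      z1 + z2 + (i + j + 6) ≤ L ∧ L < z1 + z2 + (i + j + 6) + 3 := by
    by_cases hc : L ≤ W (node x3 N1 :: l1) + l2.length + (i + j + 6)
    · obtain ⟨y, q1, q2, q3⟩ := lp_dense _ nL1 cL1 (L - (i + j + 6) - l2.length)
        (by simp only [List.length_cons]; omega) (by omega)
      refine ⟨y, l2.length, q1, lp_min l2 nl2 cl2, ?_, by omega⟩
      have : (node x3 N1 :: l1).length = l1.length + 1 := rfl
      omega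
    · obtain ⟨y, q1, q2, q3⟩ := lp_dense _ nl2 cl2 (L - (i + j + 6) - W (node x3 N1 :: l1))
        (by omega) (by omega)
      exact ⟨W (node x3 N1 :: l1), y, lp_max _ nL1 cL1, q1, by omega, by omega⟩
  -- the gadgets
  have rA : ∀ a, a ≤ 2 → Rung (node x1 N1) (node x2 N1) a a := fun a ha =>
    ⟨by rw [special_sp]; exact ha, by rw [special_sp]; exact ha, special_rungs h12 a⟩
  have fin : ∀ a b b', a ≤ 2 → Rung u u' b b' → L = a + a + 2 + (z1 + (b + b' + 2 + z2)) →
      Sp (n + 1) L := by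
    intro a b b' ha hb hL
    have e1 := (LP.pair nuu hb).append p2 hch3 hnd3
    have e2 := p1.append e1 hch2 hnd2
    have e3 := (LP.pair nxx (rA a ha)).append e2 hch hnd
    rw [← hL] at e3
    exact sp_of_LP hl e3 (by omega)
  rcases (show L = z1 + z2 + (i + j + 6) ∨ L = z1 + z2 + (i + j + 7) ∨
      L = z1 + z2 + (i + j + 8) by omega) with hL | hL | hL
  · exact fin 1 i j (by omega) hr (by omega)
  · exact fin 0 i' j' (by omega) hr' (by omega)
  · exact fin 2 i j (by omega) hr (by omega)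

end Q107.Assoc
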