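import Pool.Agent.Q107.Assoc.Tree

/-!
# Hamiltonian cycles in the rotation graph
-/

set_option autoImplicit false

namespace Q107.Assoc

open BT

/-- the fibre of a tree -/
def fib (t : BT) : List BT := (List.range (t.sp + 1)).map t.ins

lemma mem_fib {t u : BT} : u ∈ fib t ↔ u ≠ leaf ∧ u.par = t := by
  unfold fib
  rw [List.mem_map]
  constructor
  · rintro ⟨i, hi, rfl⟩
    rw [List.mem_range] at hi
    exact ⟨ins_ne_leaf t i, par_ins t i (by omega)⟩
  · rintro ⟨h1, rfl⟩
    obtain ⟨h2, h3⟩ := ins_par u h1
    exact ⟨u.idx, List.mem_range.2 (by omega), h3⟩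

lemma nodup_fib (t : BT) : (fib t).Nodup := by
  unfold fib
  apply List.Nodup.map_on _ List.nodup_range
  intro i hi j hj hij
  rw [List.mem_range] at hi hj
  rw [← idx_ins t i (by omega), ← idx_ins t j (by omega), hij]

lemma chain_fib (t : BT) : (fib t).IsChain Adj := by
  unfold fib
  rw [List.isChain_map, List.isChain_range_succ]
  intro i hi
  exact adj_ins_succ t i hi

lemma fib_ne_nil (t : BT) : fib t ≠ [] := by simp [fib]

lemma head_fib (t : BT) : (fib t).head? = some (t.ins 0) := by
  simp [fib, List.range_succ_eq_map]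

lemma last_fib (t : BT) : (fib t).getLast? = some (t.ins t.sp) := by
  simp [fib, List.range_succ]

lemma length_fib (t : BT) : (fib t).length = t.sp + 1 := by simp [fib]

/-- the list that traverses all fibres -/
def snake : List BT → List BT
  | [] => []
  | [t] => fib t
  | t :: t' :: l => fib t ++ ((fib t').reverse ++ snake l)

lemma mem_snake : ∀ (l : List BT) (u : BT), u ∈ snake l ↔ u ≠ leaf ∧ u.par ∈ l
  | [], u => by simp [snake]
  | [t], u => by simp [snake, mem_fib]
  | t :: t' :: l, u => by
    simp only [snake, List.mem_append, List.mem_reverse, mem_fib, mem_snake l u, List.mem_cons]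
    tauto

lemma nodup_snake : ∀ (l : List BT), l.Nodup → (snake l).Nodup
  | [], _ => by simp [snake]
  | [t], _ => by simpa [snake] using nodup_fib t
  | t :: t' :: l, h => by
    rw [List.nodup_cons, List.nodup_cons] at h
    obtain ⟨h1, h2, h3⟩ := h
    simp only [snake]
    rw [List.nodup_append', List.nodup_append', List.nodup_reverse]
    refine ⟨nodup_fib t, ⟨nodup_fib t', nodup_snake l h3, ?_⟩, ?_⟩
    · intro u hu hu'
      rw [List.mem_reverse, mem_fib] at hu
      rw [mem_snake] at hu'
      exact h2 (hu.2 ▸ hu'.2)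
    · intro u hu hu'
      rw [mem_fib] at hu
      rw [List.mem_append, List.mem_reverse, mem_fib, mem_snake] at hu'
      apply h1
      rw [← hu.2, List.mem_cons]
      rcases hu' with h | h
      · exact Or.inl h.2
      · exact Or.inr h.2

lemma head_snake : ∀ (l : List BT), (snake l).head? = l.head?.map (fun t => t.ins 0)
  | [] => rfl
  | [t] => by simp [snake, head_fib]
  | t :: t' :: l => by
    simp only [snake]
    rw [List.head?_append, head_fib]
    rfl

/-- chain property of the snake for lists of even length -/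
lemma chain_snake : ∀ (l : List BT), l.length % 2 = 0 → l.IsChain Adj →
    (snake l).IsChain Adj ∧ (snake l).getLast? = l.getLast?.map (fun t => t.ins 0)
  | [], _, _ => by simp [snake]
  | [t], h, _ => by simp at h
  | t :: t' :: l, h, hc => by
    have hc1 : Adj t t' := by
      rw [List.isChain_cons_cons] at hc
      exact hc.1
    have hc2 : l.IsChain Adj := by
      rw [List.isChain_cons_cons] at hc
      exact hc.2.tail
    have hl : l.length % 2 = 0 := by simp only [List.length_cons] at h; omega
    obtain ⟨h1, h2⟩ := chain_snake l hl hc2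
    have hlast' : (fib t').reverse.getLast? = some (t'.ins 0) := by
      rw [List.getLast?_reverse, head_fib]
    have hhead' : (fib t').reverse.head? = some (t'.ins t'.sp) := by
      rw [List.head?_reverse, last_fib]
    simp only [snake]
    constructor
    · rw [List.isChain_append, List.isChain_append, List.isChain_reverse]
      refine ⟨chain_fib t, ⟨(chain_fib t').imp fun a b hab => hab.symm, h1, ?_⟩, ?_⟩
      · intro x hx y hy
        rw [hlast'] at hx
        rw [head_snake] at hy
        simp only [Option.mem_def, Option.some.injEq] at hx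
        cases l with
        | nil => simp at hy
        | cons s l =>
          simp only [List.head?_cons, Option.map_some, Option.mem_def, Option.some.injEq] at hy
          rw [← hx, ← hy]
          rw [List.isChain_cons_cons, List.isChain_cons_cons] at hc
          exact adj_ins_zero hc.2.1
      · intro x hx y hy
        rw [last_fib] at hx
        rw [List.head?_append, hhead'] at hy
        simp only [Option.mem_def, Option.some.injEq, Option.some_or] at hx hy
        rw [← hx, ← hy]
        exact adj_ins_last hc1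
    · rw [List.getLast?_append, List.getLast?_append, h2, hlast']
      cases l with
      | nil => simp
      | cons s l => simp [List.getLast?_cons]

lemma fib_infix_snake : ∀ (l : List BT) (t : BT), t ∈ l →
    fib t <:+: snake l ∨ (fib t).reverse <:+: snake l
  | [], t, h => by simp at h
  | [s], t, h => by
    rw [List.mem_singleton] at h
    subst h
    exact Or.inl (List.infix_refl _)
  | s :: s' :: l, t, h => by
    rw [List.mem_cons, List.mem_cons] at h
    simp only [snake]
    rcases h with rfl | rfl | h
    · exact Or.inl ⟨[], (fib s').reverse ++ snake l, by simp⟩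
    · exact Or.inr ⟨fib s, snake l, by simp⟩
    · rcases fib_infix_snake l t h with ⟨p, q, hpq⟩ | ⟨p, q, hpq⟩
      · exact Or.inl ⟨fib s ++ (fib s').reverse ++ p, q, by rw [← hpq]; simp⟩
      · exact Or.inr ⟨fib s ++ (fib s').reverse ++ p, q, by rw [← hpq]; simp⟩

/-- closed lists -/
def CL (l : List BT) : Prop := l.IsChain Adj ∧ ∀ a ∈ l.getLast?, ∀ b ∈ l.head?, Adj a b

lemma CL.rotate {p q : List BT} (h : CL (p ++ q)) : CL (q ++ p) := by
  rcases p.eq_nil_or_concat with hp | ⟨p', a, hp⟩
  · subst hp; simpa using h
  rcases q.eq_nil_or_concat with hq | ⟨q', b, hq⟩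
  · subst hq; simpa using h
  obtain ⟨h1, h2⟩ := h
  rw [List.isChain_append] at h1
  refine ⟨?_, ?_⟩
  · rw [List.isChain_append]
    refine ⟨h1.2.1, h1.1, ?_⟩
    intro x hx y hy
    apply h2
    · rw [List.getLast?_append, hx]; rfl
    · rw [List.head?_append, hy]; rfl
  · intro x hx y hy
    apply h1.2.2
    · rw [List.getLast?_append] at hx
      subst hp
      simpa using hx
    · rw [List.head?_append] at hy
      subst hq
      cases q' <;> simpa using hy

lemma CL.map {l : List BT} (h : CL l) (f : BT → BT) (hf : ∀ a b, Adj a b → Adj (f a) (f b)) :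
    CL (l.map f) := by
  obtain ⟨h1, h2⟩ := h
  refine ⟨?_, ?_⟩
  · rw [List.isChain_map]
    exact h1.imp fun a b hab => hf a b hab
  · intro x hx y hy
    rw [List.getLast?_map] at hx
    rw [List.head?_map] at hy
    simp only [Option.mem_def, Option.map_eq_some_iff] at hx hy
    obtain ⟨a, ha, rfl⟩ := hx
    obtain ⟨b, hb, rfl⟩ := hy
    exact hf a b (h2 a ha b hb)

/-- a Hamiltonian cycle of the rotation graph on the trees with `n` nodes, as a list -/
structure HC (n : ℕ) (l : List BT) : Prop where
  nodup : l.Nodup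
  mem : ∀ t, t ∈ l ↔ t.size = n
  cl : CL l

/-- the tree with one node -/
abbrev N1 : BT := node leaf leaf

/-- Hamiltonian cycles that start with three special trees -/
def HCP (n : ℕ) : Prop :=
  ∃ (x1 x2 x3 : BT) (l : List BT), HC n (node x1 N1 :: node x2 N1 :: node x3 N1 :: l) ∧
    Adj x1 x2 ∧ Adj x2 x3

/-- the right comb -/
def comb : ℕ → BT
  | 0 => leaf
  | k + 1 => node leaf (comb k)

lemma comb_size (k : ℕ) : (comb k).size = k := by
  induction k with
  | zero => rfl
  | succ k ih => simp [comb, BT.size, ih]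

lemma comb_sp (k : ℕ) : (comb k).sp = k := by
  induction k with
  | zero => rfl
  | succ k ih => simp [comb, BT.sp, ih]

/-- from a Hamiltonian cycle that contains three consecutive insertions to the property `HCP` -/
lemma hcp_of_mid {n : ℕ} {P Q : List BT} {y1 y2 y3 : BT} (h : HC n (P ++ node N1 y1 ::
    node N1 y2 :: node N1 y3 :: Q)) (h12 : Adj y1 y2) (h23 : Adj y2 y3) : HCP n := by
  refine ⟨y1.mirror, y2.mirror, y3.mirror, (Q ++ P).map mirror, ?_, h12.mirror, h23.mirror⟩
  have e : node y1.mirror N1 :: node y2.mirror N1 :: node y3.mirror N1 :: (Q ++ P).map mirror =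
      ((node N1 y1 :: node N1 y2 :: node N1 y3 :: Q) ++ P).map mirror := by
    simp [BT.mirror]
  rw [e]
  refine ⟨?_, ?_, ?_⟩
  · apply List.Nodup.map (fun _ _ => mirror_inj)
    exact (List.perm_append_comm.nodup_iff).1 h.nodup
  · intro t
    rw [List.mem_map]
    constructor
    · rintro ⟨s, hs, rfl⟩
      rw [size_mirror, ← h.mem]
      exact (List.perm_append_comm.mem_iff).1 hs
    · intro ht
      refine ⟨t.mirror, ?_, mirror_mirror t⟩
      rw [← size_mirror, ← h.mem] at ht
      exact (List.perm_append_comm.mem_iff).1 ht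
  · exact (h.cl.rotate).map mirror fun a b hab => hab.mirror

/-- from a Hamiltonian cycle that traverses a suitable fibre to the property `HCP` -/
lemma hcp_of_fib {n k : ℕ} {M : List BT} (h : HC n M) (hk : 2 ≤ k)
    (hf : fib (node N1 (comb k)) <:+: M ∨ (fib (node N1 (comb k))).reverse <:+: M) : HCP n := by
  set y : ℕ → BT := fun i => (comb k).ins i with hy
  have e : fib (node N1 (comb k)) = (node N1 (comb k)).ins 0 :: node N1 (y 0) :: node N1 (y 1) ::
      node N1 (y 2) :: (List.range (k - 2)).map fun i => node N1 (y (i + 3)) := by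
    obtain ⟨j, rfl⟩ : ∃ j, k = j + 2 := ⟨k - 2, by omega⟩
    simp only [fib, BT.sp, comb_sp, hy]
    rw [show j + 2 + 1 + 1 = ((j + 1) + 1) + 1 + 1 by omega]
    simp only [List.range_succ_eq_map, List.map_cons, List.map_map]
    rfl
  have h01 : Adj (y 0) (y 1) := adj_ins_succ _ 0 (by rw [comb_sp]; omega)
  have h12 : Adj (y 1) (y 2) := adj_ins_succ _ 1 (by rw [comb_sp]; omega)
  rcases hf with ⟨P, Q, hPQ⟩ | ⟨P, Q, hPQ⟩
  · rw [e] at hPQ
    rw [← hPQ] at h
    refine hcp_of_mid (P := P ++ [(node N1 (comb k)).ins 0]) (Q := ((List.range (k - 2)).map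
      fun i => node N1 (y (i + 3))) ++ Q) (y1 := y 0) (y2 := y 1) (y3 := y 2) ?_ h01 h12
    simpa using h
  · rw [e] at hPQ
    rw [← hPQ] at h
    refine hcp_of_mid (P := P ++ ((List.range (k - 2)).map fun i => node N1 (y (i + 3))).reverse)
      (Q := [(node N1 (comb k)).ins 0] ++ Q) (y1 := y 2) (y2 := y 1) (y3 := y 0) ?_ h12.symm
      h01.symm
    simpa using h

/-- full rungs over the special trees -/
lemma special_rungs {x x' : BT} (h : Adj x x') (i : ℕ) :
    Adj ((node x N1).ins i) ((node x' N1).ins i) := by
  cases i with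
  | zero => exact adj_ins_zero (h.left N1)
  | succ i => exact h.left _

lemma special_sp (x : BT) : (node x N1).sp = 2 := rfl

/-- the closed list over a Hamiltonian cycle of even length -/
lemma hc_even {n : ℕ} {l : List BT} (h : HC n l) (he : l.length % 2 = 0) :
    HC (n + 1) (snake l) := by
  obtain ⟨h1, h2⟩ := chain_snake l he h.cl.1
  refine ⟨nodup_snake l h.nodup, ?_, h1, ?_⟩
  · intro t
    rw [mem_snake, h.mem]
    constructor
    · rintro ⟨h3, h4⟩
      obtain ⟨h5, h6⟩ := ins_par t h3
      rw [← h6, size_ins _ _ h5, h4]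
    · intro h3
      have h4 : t ≠ leaf := by
        rintro rfl
        simp [BT.size] at h3
      refine ⟨h4, ?_⟩
      obtain ⟨h5, h6⟩ := ins_par t h4
      rw [← h6, size_ins _ _ h5] at h3
      omega
  · intro a ha b hb
    rw [h2] at ha
    rw [head_snake] at hb
    simp only [Option.mem_def, Option.map_eq_some_iff] at ha hb
    obtain ⟨a, ha, rfl⟩ := ha
    obtain ⟨b, hb, rfl⟩ := hb
    exact adj_ins_zero (h.cl.2 a ha b hb)

/-- the path through the fibres of the three special trees -/
def trick (x1 x2 x3 : BT) : List BT :=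
  [(node x1 N1).ins 0, (node x2 N1).ins 0, (node x2 N1).ins 1, (node x1 N1).ins 1,
    (node x1 N1).ins 2, (node x2 N1).ins 2, (node x3 N1).ins 2, (node x3 N1).ins 1,
    (node x3 N1).ins 0]

lemma mem_trick (x1 x2 x3 u : BT) : u ∈ trick x1 x2 x3 ↔
    u ≠ leaf ∧ u.par ∈ [node x1 N1, node x2 N1, node x3 N1] := by
  constructor
  · intro h
    simp only [trick, List.mem_cons, List.not_mem_nil, or_false] at h
    rcases h with rfl | rfl | rfl | rfl | rfl | rfl | rfl | rfl | rfl <;>
      refine ⟨ins_ne_leaf _ _, ?_⟩ <;> rw [par_ins _ _ (by change _ ≤ 2; omega)] <;> simp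
  · rintro ⟨h1, h2⟩
    obtain ⟨h3, h4⟩ := ins_par u h1
    simp only [List.mem_cons, List.not_mem_nil, or_false] at h2
    rw [← h4]
    rcases h2 with h2 | h2 | h2 <;> rw [h2] at h3 ⊢ <;> rw [special_sp] at h3 <;>
      (have : u.idx = 0 ∨ u.idx = 1 ∨ u.idx = 2 := by omega) <;>
      rcases this with h5 | h5 | h5 <;> simp [h5, trick]

lemma nodup_trick {x1 x2 x3 : BT} (h12 : x1 ≠ x2) (h13 : x1 ≠ x3) (h23 : x2 ≠ x3) :
    (trick x1 x2 x3).Nodup := by
  have e : trick x1 x2 x3 = ([(x1, 0), (x2, 0), (x2, 1), (x1, 1), (x1, 2), (x2, 2), (x3, 2),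
    (x3, 1), (x3, 0)] : List (BT × ℕ)).map fun p => (node p.1 N1).ins p.2 := rfl
  rw [e]
  apply List.Nodup.map_on
  · rintro ⟨x, i⟩ hx ⟨y, j⟩ hy hxy
    have hi : i ≤ 2 := by
      simp only [List.mem_cons, Prod.mk.injEq, List.not_mem_nil, or_false] at hx
      omega
    have hj : j ≤ 2 := by
      simp only [List.mem_cons, Prod.mk.injEq, List.not_mem_nil, or_false] at hy
      omega
    dsimp only at hxy
    have h1 := congrArg par hxy
    rw [par_ins _ _ (by rw [special_sp]; exact hi), par_ins _ _ (by rw [special_sp]; exact hj)]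
      at h1
    have h2 := congrArg idx hxy
    rw [idx_ins _ _ (by rw [special_sp]; exact hi), idx_ins _ _ (by rw [special_sp]; exact hj)]
      at h2
    rw [(BT.node.inj h1).1, h2]
  · simp [h12, h13, h23, h12.symm]

lemma chain_trick {x1 x2 x3 : BT} (h12 : Adj x1 x2) (h23 : Adj x2 x3) :
    (trick x1 x2 x3).IsChain Adj := by
  have hs : ∀ (x : BT) (i : ℕ), i < 2 → Adj ((node x N1).ins i) ((node x N1).ins (i + 1)) :=
    fun x i hi => adj_ins_succ _ i (by rw [special_sp]; exact hi)
  simp only [trick, List.isChain_cons_cons, List.isChain_singleton, and_true]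
  exact ⟨special_rungs h12 0, hs x2 0 (by omega), (special_rungs h12 1).symm, hs x1 1 (by omega),
    special_rungs h12 2, special_rungs h23 2, (hs x3 1 (by omega)).symm,
    (hs x3 0 (by omega)).symm⟩

/-- the closed list over a Hamiltonian cycle of odd length -/
lemma hc_odd {n : ℕ} {x1 x2 x3 : BT} {l : List BT}
    (h : HC n (node x1 N1 :: node x2 N1 :: node x3 N1 :: l)) (h12 : Adj x1 x2) (h23 : Adj x2 x3)
    (he : l.length % 2 = 0) : HC (n + 1) (trick x1 x2 x3 ++ snake l) := by
  have hnd := h.nodup
  simp only [List.nodup_cons, List.mem_cons, not_or, BT.node.injEq, and_true] at hnd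
  obtain ⟨⟨n12, n13, n1⟩, ⟨n23, n2⟩, n3, nl⟩ := hnd
  have hch := h.cl.1
  rw [List.isChain_cons_cons, List.isChain_cons_cons] at hch
  have hl : l.IsChain Adj := hch.2.2.tail
  obtain ⟨h1, h2⟩ := chain_snake l he hl
  refine ⟨?_, ?_, ?_, ?_⟩
  · rw [List.nodup_append']
    refine ⟨nodup_trick n12 n13 n23, nodup_snake l nl, ?_⟩
    intro u hu hu'
    rw [mem_trick] at hu
    rw [mem_snake] at hu'
    simp only [List.mem_cons, List.not_mem_nil, or_false] at hu
    rcases hu.2 with h3 | h3 | h3
    · exact n1 (h3 ▸ hu'.2)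
    · exact n2 (h3 ▸ hu'.2)
    · exact n3 (h3 ▸ hu'.2)
  · intro t
    have h3 : t ∈ trick x1 x2 x3 ++ snake l ↔ t ≠ leaf ∧ t.par.size = n := by
      rw [List.mem_append, mem_trick, mem_snake, ← h.mem]
      simp only [List.mem_cons, List.not_mem_nil, or_false]
      tauto
    rw [h3]
    constructor
    · rintro ⟨h3, h4⟩
      obtain ⟨h5, h6⟩ := ins_par t h3
      rw [← h6, size_ins _ _ h5, h4]
    · intro h3
      have h4 : t ≠ leaf := by
        rintro rfl
        simp [BT.size] at h3
      refine ⟨h4, ?_⟩
      obtain ⟨h5, h6⟩ := ins_par t h4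
      rw [← h6, size_ins _ _ h5] at h3
      omega
  · rw [List.isChain_append]
    refine ⟨chain_trick h12 h23, h1, ?_⟩
    intro x hx y hy
    have hx' : (node x3 N1).ins 0 = x := by simpa [trick] using hx
    rw [head_snake] at hy
    cases l with
    | nil => simp at hy
    | cons s l =>
      simp only [List.head?_cons, Option.map_some, Option.mem_def, Option.some.injEq] at hy
      rw [← hx', ← hy]
      rw [List.isChain_cons_cons] at hch
      exact adj_ins_zero hch.2.2.1
  · intro x hx y hy
    have hy' : (node x1 N1).ins 0 = y := by simpa [trick] using hy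
    rw [← hy']
    rw [List.getLast?_append, h2] at hx
    cases hlast : l.getLast? with
    | none =>
      have hnil := List.getLast?_eq_none_iff.1 hlast
      subst hnil
      have hx' : (node x3 N1).ins 0 = x := by simpa [trick] using hx
      rw [← hx']
      exact adj_ins_zero (h.cl.2 _ (by simp) _ (by simp))
    | some w =>
      rw [hlast] at hx
      simp only [Option.map_some, Option.some_or, Option.mem_def, Option.some.injEq] at hx
      rw [← hx]
      refine adj_ins_zero (h.cl.2 w ?_ _ (by simp))
      have : l ≠ [] := by rintro rfl; simp at hlast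
      rw [List.getLast?_cons, List.getLast?_cons, List.getLast?_cons, hlast]
      simp

theorem hcp_succ {n : ℕ} (hn : 5 ≤ n) (h : HCP n) : HCP (n + 1) := by
  obtain ⟨x1, x2, x3, l, h1, h12, h23⟩ := h
  obtain ⟨k, rfl⟩ : ∃ k, n = k + 2 := ⟨n - 2, by omega⟩
  have hmem : node N1 (comb k) ∈ node x1 N1 :: node x2 N1 :: node x3 N1 :: l := by
    rw [h1.mem]
    simp only [BT.size, comb_size]
    omega
  rcases Nat.mod_two_eq_zero_or_one l.length with he | he
  · -- odd number of trees
    have h2 := hc_odd h1 h12 h23 he
    refine hcp_of_fib (k := k) h2 (by omega) ?_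
    have hl : node N1 (comb k) ∈ l := by
      have hne : ∀ x, node N1 (comb k) ≠ node x N1 := by
        intro x hx
        have := congrArg size (BT.node.inj hx).2
        rw [comb_size] at this
        simp [BT.size] at this
        omega
      simpa [hne] using hmem
    rcases fib_infix_snake l _ hl with h3 | h3
    · exact Or.inl (h3.trans (List.suffix_append _ _).isInfix)
    · exact Or.inr (h3.trans (List.suffix_append _ _).isInfix)
  · have h2 := hc_even h1 (by simp only [List.length_cons]; omega)
    exact hcp_of_fib (k := k) h2 (by omega) (fib_infix_snake _ _ hmem)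

end Q107.Assoc
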