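import Mathlib

/-!
# Binary trees, rotations, insertion of a rightmost node
-/

set_option autoImplicit false

namespace Q107.Assoc

/-- binary trees -/
inductive BT : Type
  | leaf : BT
  | node : BT → BT → BT
  deriving DecidableEq

open BT

/-- the number of inner nodes -/
def BT.size : BT → ℕ
  | leaf => 0
  | node l r => l.size + r.size + 1

/-- the number of nodes of the right spine -/
def BT.sp : BT → ℕ
  | leaf => 0
  | node _ r => r.sp + 1

/-- insertion of a rightmost node at depth `i` of the right spine -/
def BT.ins : BT → ℕ → BT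
  | t, 0 => node t leaf
  | node l r, i + 1 => node l (r.ins i)
  | leaf, _ + 1 => node leaf leaf

/-- removal of the rightmost node -/
def BT.par : BT → BT
  | leaf => leaf
  | node l leaf => l
  | node l (node a b) => node l (par (node a b))

/-- the depth of the rightmost node -/
def BT.idx : BT → ℕ
  | leaf => 0
  | node _ leaf => 0
  | node _ (node a b) => idx (node a b) + 1

/-- the mirror image -/
def BT.mirror : BT → BT
  | leaf => leaf
  | node l r => node r.mirror l.mirror

@[simp] lemma mirror_mirror (t : BT) : t.mirror.mirror = t := by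
  induction t with
  | leaf => rfl
  | node l r ihl ihr => simp [BT.mirror, ihl, ihr]

@[simp] lemma size_mirror (t : BT) : t.mirror.size = t.size := by
  induction t with
  | leaf => rfl
  | node l r ihl ihr => simp [BT.mirror, BT.size, ihl, ihr]; omega

lemma mirror_inj {t t' : BT} (h : t.mirror = t'.mirror) : t = t' := by
  rw [← mirror_mirror t, h, mirror_mirror]

/-- rotations to the right -/
inductive Rot : BT → BT → Prop
  | rot (a b c : BT) : Rot (node (node a b) c) (node a (node b c))
  | left {l l' : BT} (r : BT) : Rot l l' → Rot (node l r) (node l' r)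
  | right (l : BT) {r r' : BT} : Rot r r' → Rot (node l r) (node l r')

/-- adjacency -/
def Adj (t t' : BT) : Prop := Rot t t' ∨ Rot t' t

lemma Adj.symm {t t' : BT} (h : Adj t t') : Adj t' t := Or.symm h

lemma Adj.left {l l' : BT} (r : BT) (h : Adj l l') : Adj (node l r) (node l' r) := by
  rcases h with h | h
  · exact Or.inl (Rot.left r h)
  · exact Or.inr (Rot.left r h)

lemma Adj.right (l : BT) {r r' : BT} (h : Adj r r') : Adj (node l r) (node l r') := by
  rcases h with h | h
  · exact Or.inl (Rot.right l h)
  · exact Or.inr (Rot.right l h)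

lemma Adj.rot (a b c : BT) : Adj (node (node a b) c) (node a (node b c)) := Or.inl (Rot.rot a b c)

lemma Rot.mirror {t t' : BT} (h : Rot t t') : Rot t'.mirror t.mirror := by
  induction h with
  | rot a b c => exact Rot.rot _ _ _
  | left r _ ih => exact Rot.right _ ih
  | right l _ ih => exact Rot.left _ ih

lemma Adj.mirror {t t' : BT} (h : Adj t t') : Adj t.mirror t'.mirror := by
  rcases h with h | h
  · exact Or.inr h.mirror
  · exact Or.inl h.mirror

lemma Rot.size {t t' : BT} (h : Rot t t') : t.size = t'.size := by
  induction h with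
  | rot a b c => simp [BT.size]; omega
  | left r _ ih => simp [BT.size, ih]
  | right l _ ih => simp [BT.size, ih]

lemma sp_le_size (t : BT) : t.sp ≤ t.size := by
  induction t with
  | leaf => simp [BT.sp]
  | node l r _ ihr => simp only [BT.sp, BT.size]; omega

lemma sp_pos {t : BT} (h : 0 < t.size) : 0 < t.sp := by
  cases t with
  | leaf => simp [BT.size] at h
  | node l r => simp [BT.sp]

lemma ins_zero (t : BT) : t.ins 0 = node t leaf := by
  cases t <;> rfl

lemma ins_succ (l r : BT) (i : ℕ) : (node l r).ins (i + 1) = node l (r.ins i) := rfl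

lemma size_ins (t : BT) (i : ℕ) (h : i ≤ t.sp) : (t.ins i).size = t.size + 1 := by
  induction t generalizing i with
  | leaf =>
    simp only [BT.sp, nonpos_iff_eq_zero] at h
    subst h
    rfl
  | node l r _ ihr =>
    cases i with
    | zero => rfl
    | succ i =>
      simp only [BT.sp] at h
      rw [ins_succ, BT.size, BT.size, ihr i (by omega)]
      omega

lemma par_node_ne (l : BT) {r : BT} (h : r ≠ leaf) : (node l r).par = node l r.par := by
  cases r with
  | leaf => exact absurd rfl h
  | node a b => rfl

lemma idx_node_ne (l : BT) {r : BT} (h : r ≠ leaf) : (node l r).idx = r.idx + 1 := by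
  cases r with
  | leaf => exact absurd rfl h
  | node a b => rfl

lemma ins_ne_leaf (t : BT) (i : ℕ) : t.ins i ≠ leaf := by
  cases t <;> cases i <;> simp [BT.ins]

lemma par_ins (t : BT) (i : ℕ) (h : i ≤ t.sp) : (t.ins i).par = t := by
  induction t generalizing i with
  | leaf =>
    simp only [BT.sp, nonpos_iff_eq_zero] at h
    subst h
    rfl
  | node l r _ ihr =>
    cases i with
    | zero => rfl
    | succ i =>
      simp only [BT.sp] at h
      rw [ins_succ, par_node_ne l (ins_ne_leaf r i), ihr i (by omega)]

lemma idx_ins (t : BT) (i : ℕ) (h : i ≤ t.sp) : (t.ins i).idx = i := by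
  induction t generalizing i with
  | leaf =>
    simp only [BT.sp, nonpos_iff_eq_zero] at h
    subst h
    rfl
  | node l r _ ihr =>
    cases i with
    | zero => rfl
    | succ i =>
      simp only [BT.sp] at h
      rw [ins_succ, idx_node_ne l (ins_ne_leaf r i), ihr i (by omega)]

/-- every nonempty tree arises by an insertion -/
lemma ins_par (t : BT) (h : t ≠ leaf) : t.idx ≤ t.par.sp ∧ t.par.ins t.idx = t := by
  induction t with
  | leaf => exact absurd rfl h
  | node l r _ ihr =>
    by_cases hr : r = leaf
    · subst hr
      exact ⟨Nat.zero_le _, ins_zero _⟩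
    · obtain ⟨h1, h2⟩ := ihr hr
      rw [par_node_ne l hr, idx_node_ne l hr]
      refine ⟨?_, ?_⟩
      · simp only [BT.sp]
        omega
      · rw [ins_succ, h2]

/-- consecutive insertions are adjacent -/
lemma adj_ins_succ (t : BT) (i : ℕ) (h : i < t.sp) : Adj (t.ins i) (t.ins (i + 1)) := by
  induction t generalizing i with
  | leaf => simp [BT.sp] at h
  | node l r _ ihr =>
    cases i with
    | zero =>
      rw [ins_zero, ins_succ, ins_zero]
      exact Adj.rot l r leaf
    | succ i =>
      simp only [BT.sp] at h
      exact (ihr i (by omega)).right l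

lemma adj_ins_zero {t t' : BT} (h : Adj t t') : Adj (t.ins 0) (t'.ins 0) := by
  rw [ins_zero, ins_zero]
  exact h.left leaf

/-- the rungs between the fibres of two trees that differ by a rotation -/
lemma rungs {t t' : BT} (h : Rot t t') :
    (t'.sp = t.sp ∧ ∀ i ≤ t.sp, Adj (t.ins i) (t'.ins i)) ∨
    (t'.sp = t.sp + 1 ∧ ∃ j < t.sp, (∀ i ≤ j, Adj (t.ins i) (t'.ins i)) ∧
      ∀ i, j < i → i ≤ t.sp → Adj (t.ins i) (t'.ins (i + 1))) := by
  induction h with
  | rot a b c =>
    right
    refine ⟨by simp [BT.sp], 0, by simp [BT.sp], ?_, ?_⟩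
    · intro i hi
      rw [Nat.le_zero.1 hi]
      exact adj_ins_zero (Adj.rot a b c)
    · intro i hi _
      obtain ⟨i, rfl⟩ : ∃ i', i = i' + 1 := ⟨i - 1, by omega⟩
      rw [ins_succ, ins_succ, ins_succ]
      exact Adj.rot a b _
  | left r h _ =>
    left
    refine ⟨by simp [BT.sp], ?_⟩
    intro i _
    cases i with
    | zero => exact adj_ins_zero (Or.inl (Rot.left r h))
    | succ i =>
      rw [ins_succ, ins_succ]
      exact Or.inl (Rot.left _ h)
  | right l h ih =>
    rcases ih with ⟨h1, h2⟩ | ⟨h1, j, h2, h3, h4⟩
    · left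
      refine ⟨by simp [BT.sp, h1], ?_⟩
      intro i hi
      cases i with
      | zero => exact adj_ins_zero (Or.inl (Rot.right l h))
      | succ i =>
        simp only [BT.sp] at hi
        rw [ins_succ, ins_succ]
        exact (h2 i (by omega)).right l
    · right
      refine ⟨by simp [BT.sp, h1], j + 1, by simp [BT.sp]; omega, ?_, ?_⟩
      · intro i hi
        cases i with
        | zero => exact adj_ins_zero (Or.inl (Rot.right l h))
        | succ i =>
          rw [ins_succ, ins_succ]
          exact (h3 i (by omega)).right l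
      · intro i hi hi'
        obtain ⟨i, rfl⟩ : ∃ i', i = i' + 1 := ⟨i - 1, by omega⟩
        simp only [BT.sp] at hi'
        rw [ins_succ, ins_succ]
        exact (h4 i (by omega) (by omega)).right l

/-- the last insertions are adjacent -/
lemma adj_ins_last {t t' : BT} (h : Adj t t') : Adj (t.ins t.sp) (t'.ins t'.sp) := by
  have key : ∀ {t t' : BT}, Rot t t' → Adj (t.ins t.sp) (t'.ins t'.sp) := by
    intro t t' h
    rcases rungs h with ⟨h1, h2⟩ | ⟨h1, j, h2, _, h4⟩
    · rw [h1]
      exact h2 _ (le_refl _)
    · rw [h1]
      exact h4 _ h2 (le_refl _)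
  rcases h with h | h
  · exact key h
  · exact (key h).symm

end Q107.Assoc
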