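import Pool.Agent.Q107.Assoc.Count

/-!
# Triangulations of a convex polygon and binary trees
-/

set_option autoImplicit false

namespace Q107.Assoc

open BT

/-- A diagonal of the convex polygon with the vertices `0, 1, ..., N - 1` (in this cyclic order): a
pair of vertices that are not neighbours, listed in increasing order. -/
def IsDiag (N : ℕ) (p : ℕ × ℕ) : Prop := p.1 + 2 ≤ p.2 ∧ p.2 < N ∧ ¬ (p.1 = 0 ∧ p.2 + 1 = N)

/-- Two diagonals cross. -/
def Crosses (p q : ℕ × ℕ) : Prop :=
  (p.1 < q.1 ∧ q.1 < p.2 ∧ p.2 < q.2) ∨ (q.1 < p.1 ∧ p.1 < q.2 ∧ q.2 < p.2)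

/-- A triangulation: a maximal set of pairwise non-crossing diagonals. -/
def IsTriangulation (N : ℕ) (T : Finset (ℕ × ℕ)) : Prop :=
  (∀ p ∈ T, IsDiag N p) ∧ (∀ p ∈ T, ∀ q ∈ T, ¬ Crosses p q) ∧
    ∀ p, IsDiag N p → (∀ q ∈ T, ¬ Crosses p q) → p ∈ T

/-- the set of triangulations of the polygon with `N` vertices -/
abbrev Triang (N : ℕ) : Type := {T : Finset (ℕ × ℕ) // IsTriangulation N T}

/-- one diagonal is replaced by another one -/
def Flip (T T' : Finset (ℕ × ℕ)) : Prop :=
  ∃ d ∈ T, ∃ d' ∉ T, T' = insert d' (T.erase d)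

lemma Flip.symm {T T' : Finset (ℕ × ℕ)} (h : Flip T T') : Flip T' T := by
  obtain ⟨d, hd, d', hd', rfl⟩ := h
  have hne : d' ≠ d := by rintro rfl; exact hd' hd
  refine ⟨d', Finset.mem_insert_self _ _, d, ?_, ?_⟩
  · simp [hne.symm]
  · rw [Finset.erase_insert (by simp [hd']), Finset.insert_erase hd]

/-- The flip graph: two triangulations are adjacent when one arises from the other by removing one
diagonal and inserting another one. -/
def flipGraph (N : ℕ) : SimpleGraph (Triang N) where
  Adj T T' := Flip T.1 T'.1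
  symm := ⟨fun _ _ h => h.symm⟩
  loopless := ⟨by
    rintro T ⟨d, hd, d', hd', h⟩
    have h1 := Finset.mem_insert_self d' (T.1.erase d)
    rw [← h] at h1
    exact hd' h1⟩

/-! ### the chords of a tree -/

/-- the chords of the tree `t` placed at the vertices `i, ..., i + |t| + 1` -/
def seg : ℕ → BT → Finset (ℕ × ℕ)
  | _, leaf => ∅
  | i, node l r => insert (i, i + (l.size + r.size + 1) + 1) (seg i l ∪ seg (i + l.size + 1) r)

lemma mem_seg_node {i : ℕ} {l r : BT} {p : ℕ × ℕ} : p ∈ seg i (node l r) ↔
    p = (i, i + (l.size + r.size + 1) + 1) ∨ p ∈ seg i l ∨ p ∈ seg (i + l.size + 1) r := by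
  simp [seg]

lemma seg_bounds : ∀ (t : BT) (i : ℕ) (p : ℕ × ℕ), p ∈ seg i t →
    i ≤ p.1 ∧ p.1 + 2 ≤ p.2 ∧ p.2 ≤ i + t.size + 1 := by
  intro t
  induction t with
  | leaf => intro i p hp; simp [seg] at hp
  | node l r ihl ihr =>
    intro i p hp
    rw [mem_seg_node] at hp
    simp only [BT.size]
    rcases hp with rfl | hp | hp
    · dsimp only; omega
    · have := ihl i p hp; omega
    · have := ihr _ p hp; omega

lemma root_mem {t : BT} (i : ℕ) (h : t ≠ leaf) : (i, i + t.size + 1) ∈ seg i t := by
  cases t with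
  | leaf => exact absurd rfl h
  | node l r => rw [mem_seg_node]; left; rfl

lemma seg_noncross : ∀ (t : BT) (i : ℕ) (p q : ℕ × ℕ), p ∈ seg i t → q ∈ seg i t →
    ¬ Crosses p q := by
  intro t
  induction t with
  | leaf => intro i p q hp; simp [seg] at hp
  | node l r ihl ihr =>
    intro i p q hp hq
    rw [mem_seg_node] at hp hq
    rcases hp with rfl | hp | hp <;> rcases hq with rfl | hq | hq
    · unfold Crosses; dsimp only; omega
    · have := seg_bounds l i q hq; unfold Crosses; dsimp only; omega
    · have := seg_bounds r _ q hq; unfold Crosses; dsimp only; omega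
    · have := seg_bounds l i p hp; unfold Crosses; dsimp only; omega
    · exact ihl i p q hp hq
    · have := seg_bounds l i p hp
      have := seg_bounds r _ q hq
      unfold Crosses; omega
    · have := seg_bounds r _ p hp; unfold Crosses; dsimp only; omega
    · have := seg_bounds r _ p hp
      have := seg_bounds l i q hq
      unfold Crosses; omega
    · exact ihr _ p q hp hq

lemma seg_max : ∀ (t : BT) (i : ℕ) (p : ℕ × ℕ), i ≤ p.1 → p.1 + 2 ≤ p.2 →
    p.2 ≤ i + t.size + 1 → (∀ q ∈ seg i t, ¬ Crosses p q) → p ∈ seg i t := by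
  intro t
  induction t with
  | leaf => intro i p h1 h2 h3 _; simp only [BT.size] at h3; omega
  | node l r ihl ihr =>
    rintro i ⟨a, b⟩ h1 h2 h3 hc
    simp only [BT.size] at h1 h2 h3
    rw [mem_seg_node]
    by_cases hbk : b ≤ i + l.size + 1
    · right; left
      exact ihl i (a, b) h1 h2 hbk fun q hq => hc q (by rw [mem_seg_node]; exact Or.inr (Or.inl hq))
    by_cases hak : i + l.size + 1 ≤ a
    · right; right
      exact ihr _ (a, b) hak h2 (by dsimp only; omega)
        fun q hq => hc q (by rw [mem_seg_node]; exact Or.inr (Or.inr hq))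
    left
    by_cases hai : a = i
    · subst hai
      by_cases hbj : b = a + (l.size + r.size + 1) + 1
      · rw [hbj]
      · exfalso
        have hr : r ≠ leaf := by
          rintro rfl
          simp only [BT.size] at *
          omega
        have hm := root_mem (a + l.size + 1) hr
        have := hc _ (by rw [mem_seg_node]; exact Or.inr (Or.inr hm))
        apply this
        unfold Crosses
        dsimp only
        omega
    · exfalso
      have hl : l ≠ leaf := by
        rintro rfl
        simp only [BT.size] at *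
        omega
      have hm := root_mem i hl
      have := hc _ (by rw [mem_seg_node]; exact Or.inr (Or.inl hm))
      apply this
      unfold Crosses
      dsimp only
      omega

lemma mem_seg_left {i : ℕ} {l r : BT} {p : ℕ × ℕ} :
    p ∈ seg i l ↔ p ∈ seg i (node l r) ∧ p.2 ≤ i + l.size + 1 := by
  constructor
  · intro h
    exact ⟨by rw [mem_seg_node]; exact Or.inr (Or.inl h), (seg_bounds l i p h).2.2⟩
  · rintro ⟨h, h2⟩
    rw [mem_seg_node] at h
    rcases h with rfl | h | h
    · dsimp only at h2; omega
    · exact h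
    · have := seg_bounds r _ p h; omega

lemma mem_seg_right {i : ℕ} {l r : BT} {p : ℕ × ℕ} :
    p ∈ seg (i + l.size + 1) r ↔ p ∈ seg i (node l r) ∧ i + l.size + 1 ≤ p.1 := by
  constructor
  · intro h
    exact ⟨by rw [mem_seg_node]; exact Or.inr (Or.inr h), (seg_bounds r _ p h).1⟩
  · rintro ⟨h, h2⟩
    rw [mem_seg_node] at h
    rcases h with rfl | h | h
    · dsimp only at h2; omega
    · have := seg_bounds l _ p h; omega
    · exact h

lemma seg_split {i : ℕ} {l r l' r' : BT} (hs : (node l r).size = (node l' r').size)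
    (h : seg i (node l r) = seg i (node l' r')) : ¬ l.size < l'.size := by
  intro hlt
  simp only [BT.size] at hs
  have hl' : l' ≠ leaf := by
    rintro rfl
    simp [BT.size] at hlt
  have hm := root_mem i hl'
  have h1 : (i, i + l'.size + 1) ∈ seg i (node l r) := by
    rw [h, mem_seg_node]
    exact Or.inr (Or.inl hm)
  rw [mem_seg_node] at h1
  rcases h1 with h1 | h1 | h1
  · have := (Prod.mk.inj h1).2
    omega
  · have := seg_bounds l i _ h1
    dsimp only at this
    omega
  · have := seg_bounds r _ _ h1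
    dsimp only at this
    omega

lemma seg_inj : ∀ (t t' : BT) (i : ℕ), t.size = t'.size → seg i t = seg i t' → t = t' := by
  intro t
  induction t with
  | leaf =>
    intro t' i hs _
    cases t' with
    | leaf => rfl
    | node l r => simp [BT.size] at hs
  | node l r ihl ihr =>
    intro t' i hs h
    cases t' with
    | leaf => simp [BT.size] at hs
    | node l' r' =>
      have h1 := seg_split hs h
      have h2 := seg_split hs.symm h.symm
      have h3 : l.size = l'.size := by omega
      have h4 : r.size = r'.size := by simp only [BT.size] at hs; omega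
      have h5 : seg i l = seg i l' := by
        ext p
        rw [mem_seg_left (l := l) (r := r), mem_seg_left (l := l') (r := r'), h, h3]
      have h6 : seg (i + l.size + 1) r = seg (i + l.size + 1) r' := by
        ext p
        rw [mem_seg_right]
        conv_rhs => rw [h3, mem_seg_right]
        rw [h, h3]
      rw [ihl l' i h3 h5, ihr r' _ h4 h6]

/-- a maximal non-crossing set of chords of the interval from `i` to `j` -/
def Maxi (i j : ℕ) (T : Finset (ℕ × ℕ)) : Prop :=
  (∀ p ∈ T, i ≤ p.1 ∧ p.1 + 2 ≤ p.2 ∧ p.2 ≤ j) ∧ (∀ p ∈ T, ∀ q ∈ T, ¬ Crosses p q) ∧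
    ∀ p : ℕ × ℕ, i ≤ p.1 → p.1 + 2 ≤ p.2 → p.2 ≤ j → (∀ q ∈ T, ¬ Crosses p q) → p ∈ T

theorem maxi_exists (m : ℕ) : ∀ (i : ℕ) (T : Finset (ℕ × ℕ)), Maxi i (i + m + 1) T →
    ∃ t : BT, t.size = m ∧ seg i t = T := by
  induction m using Nat.strong_induction_on with
  | _ m ih =>
    intro i T hT
    obtain ⟨hb, hc, hmax⟩ := hT
    rcases Nat.eq_zero_or_pos m with hm | hm
    · subst hm
      refine ⟨leaf, rfl, ?_⟩
      symm
      rw [seg, Finset.eq_empty_iff_forall_notMem]
      intro p hp
      have := hb p hp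
      omega
    -- the apex over the root chord
    obtain ⟨k, hk1, hk2⟩ : ∃ k, (k ≤ i + m ∧ (k = i + 1 ∨ (i, k) ∈ T)) ∧
        ∀ k', (k' ≤ i + m ∧ (k' = i + 1 ∨ (i, k') ∈ T)) → k' ≤ k := by
      classical
      obtain ⟨k, h1, h2⟩ := Finset.exists_max_image
        ((Finset.range (i + m + 1)).filter fun k => k = i + 1 ∨ (i, k) ∈ T) (fun k => k)
        ⟨i + 1, by simp; omega⟩
      simp only [Finset.mem_filter, Finset.mem_range] at h1 h2
      exact ⟨k, ⟨by omega, h1.2⟩, fun k' hk' => h2 k' ⟨by omega, hk'.2⟩⟩
    obtain ⟨hkm, hk1⟩ := hk1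
    have hik : i + 1 ≤ k := by
      rcases hk1 with h | h
      · omega
      · have := hb _ h; dsimp only at this; omega
    -- a chord over the apex is the root chord
    have hover : ∀ p ∈ T, p.1 < k → k < p.2 → p = (i, i + m + 1) := by
      rintro ⟨a, b⟩ hp h1 h2
      dsimp only at h1 h2
      have hpb := hb _ hp
      dsimp only at hpb
      have hai : a = i := by
        by_contra hne
        rcases hk1 with h | h
        · omega
        · apply hc _ h _ hp
          unfold Crosses
          dsimp only
          omega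
      subst hai
      have hbj : b = a + m + 1 := by
        by_contra hne
        have := hk2 b ⟨by omega, Or.inr hp⟩
        omega
      rw [hbj]
    -- the left and the right part
    have hleft : Maxi i (i + (k - i - 1) + 1) (T.filter fun p => p.2 ≤ k) := by
      have e : i + (k - i - 1) + 1 = k := by omega
      rw [e]
      refine ⟨?_, ?_, ?_⟩
      · intro p hp
        rw [Finset.mem_filter] at hp
        have := hb p hp.1
        omega
      · intro p hp q hq
        exact hc p (Finset.mem_filter.1 hp).1 q (Finset.mem_filter.1 hq).1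
      · intro p h1 h2 h3 h4
        rw [Finset.mem_filter]
        refine ⟨hmax p h1 h2 (by omega) ?_, h3⟩
        intro q hq hcr
        by_cases hqk : q.2 ≤ k
        · exact h4 q (Finset.mem_filter.2 ⟨hq, hqk⟩) hcr
        · have hqb := hb q hq
          by_cases hq1 : q.1 < k
          · have := hover q hq hq1 (by omega)
            rw [this] at hcr
            unfold Crosses at hcr
            dsimp only at hcr
            omega
          · unfold Crosses at hcr
            omega
    have hright : Maxi k (k + (i + m - k) + 1) (T.filter fun p => k ≤ p.1) := by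
      have e : k + (i + m - k) + 1 = i + m + 1 := by omega
      rw [e]
      refine ⟨?_, ?_, ?_⟩
      · intro p hp
        rw [Finset.mem_filter] at hp
        have := hb p hp.1
        omega
      · intro p hp q hq
        exact hc p (Finset.mem_filter.1 hp).1 q (Finset.mem_filter.1 hq).1
      · intro p h1 h2 h3 h4
        rw [Finset.mem_filter]
        refine ⟨hmax p (by omega) h2 h3 ?_, h1⟩
        intro q hq hcr
        by_cases hqk : k ≤ q.1
        · exact h4 q (Finset.mem_filter.2 ⟨hq, hqk⟩) hcr
        · have hqb := hb q hq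
          by_cases hq1 : k < q.2
          · have := hover q hq (by omega) hq1
            rw [this] at hcr
            unfold Crosses at hcr
            dsimp only at hcr
            omega
          · unfold Crosses at hcr
            omega
    obtain ⟨l, hl1, hl2⟩ := ih (k - i - 1) (by omega) i _ hleft
    obtain ⟨r, hr1, hr2⟩ := ih (i + m - k) (by omega) k _ hright
    refine ⟨node l r, by simp only [BT.size]; omega, ?_⟩
    ext p
    have e1 : i + l.size + 1 = k := by omega
    have e2 : i + (l.size + r.size + 1) + 1 = i + m + 1 := by omega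
    rw [mem_seg_node, e1, e2, hl2, hr2, Finset.mem_filter, Finset.mem_filter]
    constructor
    · rintro (rfl | h | h)
      · refine hmax _ (le_refl _) (by dsimp only; omega) (le_refl _) ?_
        intro q hq
        have := hb q hq
        unfold Crosses
        dsimp only
        omega
      · exact h.1
      · exact h.1
    · intro hp
      by_cases h1 : p.2 ≤ k
      · exact Or.inr (Or.inl ⟨hp, h1⟩)
      by_cases h2 : k ≤ p.1
      · exact Or.inr (Or.inr ⟨hp, h2⟩)
      · exact Or.inl (hover p hp (by omega) (by omega))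

lemma maxi_seg (t : BT) (i : ℕ) : Maxi i (i + t.size + 1) (seg i t) :=
  ⟨fun p hp => seg_bounds t i p hp, fun p hp q hq => seg_noncross t i p q hp hq,
    fun p h1 h2 h3 h4 => seg_max t i p h1 h2 h3 h4⟩

/-! ### the triangulation of a tree -/

/-- the diagonals of a tree -/
def Phi (t : BT) : Finset (ℕ × ℕ) := (seg 0 t).erase (0, t.size + 1)

lemma isDiag_iff {n : ℕ} {p : ℕ × ℕ} :
    IsDiag (n + 2) p ↔ p.1 + 2 ≤ p.2 ∧ p.2 ≤ n + 1 ∧ p ≠ (0, n + 1) := by
  obtain ⟨a, b⟩ := p
  unfold IsDiag
  rw [Ne, Prod.mk.injEq]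
  dsimp only
  omega

lemma not_crosses_root {n : ℕ} {p : ℕ × ℕ} (h : p.2 ≤ n + 1) :
    ¬ Crosses p (0, n + 1) ∧ ¬ Crosses (0, n + 1) p := by
  unfold Crosses
  dsimp only
  omega

lemma isTriang_of_maxi {n : ℕ} {S : Finset (ℕ × ℕ)} (h : Maxi 0 (0 + n + 1) S) :
    IsTriangulation (n + 2) (S.erase (0, n + 1)) := by
  obtain ⟨h1, h2, h3⟩ := h
  simp only [Nat.zero_add] at h1 h3
  refine ⟨?_, ?_, ?_⟩
  · intro p hp
    rw [Finset.mem_erase] at hp
    have := h1 p hp.2
    rw [isDiag_iff]
    exact ⟨by omega, by omega, hp.1⟩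
  · intro p hp q hq
    exact h2 p (Finset.mem_of_mem_erase hp) q (Finset.mem_of_mem_erase hq)
  · intro p hp hcr
    rw [isDiag_iff] at hp
    rw [Finset.mem_erase]
    refine ⟨hp.2.2, h3 p (Nat.zero_le _) hp.1 hp.2.1 ?_⟩
    intro q hq
    by_cases hqr : q = (0, n + 1)
    · rw [hqr]
      exact (not_crosses_root hp.2.1).1
    · exact hcr q (Finset.mem_erase.2 ⟨hqr, hq⟩)

lemma maxi_of_isTriang {n : ℕ} (hn : 1 ≤ n) {T : Finset (ℕ × ℕ)}
    (h : IsTriangulation (n + 2) T) : Maxi 0 (0 + n + 1) (insert (0, n + 1) T) := by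
  obtain ⟨h1, h2, h3⟩ := h
  simp only [Nat.zero_add]
  refine ⟨?_, ?_, ?_⟩
  · intro p hp
    rw [Finset.mem_insert] at hp
    rcases hp with rfl | hp
    · dsimp only; omega
    · have := h1 p hp
      rw [isDiag_iff] at this
      omega
  · intro p hp q hq
    rw [Finset.mem_insert] at hp hq
    rcases hp with rfl | hp <;> rcases hq with rfl | hq
    · unfold Crosses; dsimp only; omega
    · exact (not_crosses_root (isDiag_iff.1 (h1 q hq)).2.1).2
    · exact (not_crosses_root (isDiag_iff.1 (h1 p hp)).2.1).1
    · exact h2 p hp q hq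
  · intro p _ hp2 hp3 hcr
    rw [Finset.mem_insert]
    by_cases hpr : p = (0, n + 1)
    · exact Or.inl hpr
    · right
      exact h3 p (isDiag_iff.2 ⟨hp2, hp3, hpr⟩)
        fun q hq => hcr q (Finset.mem_insert_of_mem hq)

lemma Phi_triang (t : BT) : IsTriangulation (t.size + 2) (Phi t) :=
  isTriang_of_maxi (maxi_seg t 0)

lemma root_mem_zero {t : BT} (h : 1 ≤ t.size) : (0, t.size + 1) ∈ seg 0 t := by
  have := root_mem 0 (t := t) (by rintro rfl; simp [BT.size] at h)
  simpa using this

lemma Phi_inj {t t' : BT} (ht : 1 ≤ t.size) (hs : t.size = t'.size) (h : Phi t = Phi t') :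
    t = t' := by
  apply seg_inj t t' 0 hs
  have h1 := Finset.insert_erase (root_mem_zero ht)
  have h2 := Finset.insert_erase (root_mem_zero (hs ▸ ht))
  unfold Phi at h
  rw [← h1, ← h2, h, hs]

lemma Phi_surj {n : ℕ} (hn : 1 ≤ n) {T : Finset (ℕ × ℕ)} (h : IsTriangulation (n + 2) T) :
    ∃ t : BT, t.size = n ∧ Phi t = T := by
  obtain ⟨t, h1, h2⟩ := maxi_exists n 0 _ (maxi_of_isTriang hn h)
  refine ⟨t, h1, ?_⟩
  unfold Phi
  rw [h2, h1, Finset.erase_insert]
  intro h3
  exact ((isDiag_iff.1 (h.1 _ h3)).2.2) rfl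

/-! ### rotations are flips -/

lemma rot_seg {t t' : BT} (h : Rot t t') : ∀ i, ∃ d d', d ∈ seg i t ∧ d' ∈ seg i t' ∧
    d ∉ seg i t' ∧ d' ∉ seg i t ∧ (∀ p, p ≠ d → p ≠ d' → (p ∈ seg i t ↔ p ∈ seg i t')) := by
  induction h with
  | rot a b c =>
    intro i
    refine ⟨(i, i + (a.size + b.size + 1) + 1), (i + a.size + 1, i + (a.size + 1 + b.size +
      c.size + 1) + 1), ?_, ?_, ?_, ?_, ?_⟩
    · rw [mem_seg_node, mem_seg_node]
      right; left; left; rfl
    · rw [mem_seg_node, mem_seg_node]
      right; right; left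
      rw [Prod.mk.injEq]
      omega
    · rw [mem_seg_node, mem_seg_node]
      rintro (h | h | h | h | h)
      · have := (Prod.mk.inj h).2
        simp only [BT.size] at this
        omega
      · have := seg_bounds _ _ _ h; dsimp only at this; omega
      · have := (Prod.mk.inj h).1
        omega
      · have := seg_bounds _ _ _ h; dsimp only at this; omega
      · have := seg_bounds _ _ _ h; dsimp only at this; omega
    · rw [mem_seg_node, mem_seg_node]
      rintro (h | (h | h | h) | h)
      · have := (Prod.mk.inj h).1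
        omega
      · have := (Prod.mk.inj h).1
        omega
      · have := seg_bounds _ _ _ h; dsimp only at this; omega
      · have := seg_bounds _ _ _ h; dsimp only at this; omega
      · have := seg_bounds _ _ _ h; simp only [BT.size] at this; omega
    · intro p h1 h2
      rw [mem_seg_node, mem_seg_node, mem_seg_node, mem_seg_node]
      simp only [BT.size]
      have e1 : i + (a.size + b.size + 1) + 1 = i + a.size + 1 + b.size + 1 := by omega
      have e2 : i + (a.size + b.size + 1 + c.size + 1) + 1 =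
        i + (a.size + (b.size + c.size + 1) + 1) + 1 := by omega
      have e3 : i + (a.size + 1 + b.size + c.size + 1) + 1 =
        i + a.size + 1 + (b.size + c.size + 1) + 1 := by omega
      rw [e1] at h1
      rw [e3] at h2
      rw [e1, e2]
      tauto
  | left r h ih =>
    rename_i l l'
    intro i
    obtain ⟨d, d', h1, h2, h3, h4, h5⟩ := ih i
    have hs := h.size
    have b1 := seg_bounds _ _ _ h1
    have b2 := seg_bounds _ _ _ h2
    refine ⟨d, d', mem_seg_left.1 h1 |>.1, mem_seg_left.1 h2 |>.1, ?_, ?_, ?_⟩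
    · intro hd
      exact h3 (mem_seg_left.2 ⟨hd, by omega⟩)
    · intro hd
      exact h4 (mem_seg_left.2 ⟨hd, by omega⟩)
    · intro p hp1 hp2
      rw [mem_seg_node, mem_seg_node, h5 p hp1 hp2, hs]
  | right l h ih =>
    rename_i r r'
    intro i
    obtain ⟨d, d', h1, h2, h3, h4, h5⟩ := ih (i + l.size + 1)
    have hs := h.size
    have b1 := seg_bounds _ _ _ h1
    have b2 := seg_bounds _ _ _ h2
    refine ⟨d, d', mem_seg_right.1 h1 |>.1, mem_seg_right.1 h2 |>.1, ?_, ?_, ?_⟩
    · intro hd
      exact h3 (mem_seg_right.2 ⟨hd, by omega⟩)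
    · intro hd
      exact h4 (mem_seg_right.2 ⟨hd, by omega⟩)
    · intro p hp1 hp2
      rw [mem_seg_node, mem_seg_node, h5 p hp1 hp2, hs]

lemma flip_of_rot {t t' : BT} (ht : 1 ≤ t.size) (h : Rot t t') : Flip (Phi t) (Phi t') := by
  obtain ⟨d, d', h1, h2, h3, h4, h5⟩ := rot_seg h 0
  have hs := h.size
  have r1 := root_mem_zero ht
  have r2 := root_mem_zero (hs ▸ ht)
  have hd : d ≠ (0, t.size + 1) := by
    rintro rfl
    rw [hs] at h3
    exact h3 r2
  have hd' : d' ≠ (0, t.size + 1) := by
    rintro rfl
    exact h4 r1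
  refine ⟨d, Finset.mem_erase.2 ⟨hd, h1⟩, d', fun h => h4 (Finset.mem_of_mem_erase h), ?_⟩
  ext p
  unfold Phi
  rw [Finset.mem_erase, Finset.mem_insert, Finset.mem_erase, Finset.mem_erase, ← hs]
  by_cases hp1 : p = d
  · subst hp1
    simp only [h3, and_false, ne_eq, not_true_eq_false, false_and, or_false, false_iff]
    rintro rfl
    exact h3 h2
  by_cases hp2 : p = d'
  · subst hp2
    simp [h2, hd']
  · rw [h5 p hp1 hp2]
    tauto

lemma flip_of_adj {t t' : BT} (ht : 1 ≤ t.size) (h : Adj t t') : Flip (Phi t) (Phi t') := by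
  rcases h with h | h
  · exact flip_of_rot ht h
  · exact (flip_of_rot (h.size ▸ ht) h).symm

/-! ### cycles -/

/-- a closed list gives a cycle -/
lemma cycle_of_list {V : Type} (G : SimpleGraph V) (l : List V) (h1 : l.Nodup)
    (h2 : l.IsChain G.Adj) (h3 : ∀ a ∈ l.getLast?, ∀ b ∈ l.head?, G.Adj a b)
    (h4 : 3 ≤ l.length) : ∃ (v : V) (p : G.Walk v v), p.IsCycle ∧ p.length = l.length := by
  have hne : l ≠ [] := by
    rintro rfl
    simp at h4
  have hadj : G.Adj (l.getLast hne) (l.head hne) :=
    h3 _ (List.getLast?_eq_getLast_of_ne_nil hne) _ (List.head?_eq_some_head hne)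
  let p := SimpleGraph.Walk.ofSupport l hne h2
  have hp : p.support = l := SimpleGraph.Walk.support_ofSupport hne h2
  have hlen : p.length + 1 = l.length := by
    have := congrArg List.length hp
    rwa [SimpleGraph.Walk.length_support] at this
  refine ⟨_, SimpleGraph.Walk.cons hadj p, ?_, ?_⟩
  · rw [SimpleGraph.Walk.isCycle_iff_isPath_tail_and_le_length]
    refine ⟨?_, ?_⟩
    · have : p.IsPath := by
        rw [SimpleGraph.Walk.isPath_def, hp]
        exact h1
      simpa using this
    · rw [SimpleGraph.Walk.length_cons]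
      omega
  · rw [SimpleGraph.Walk.length_cons]
    exact hlen

/-- The cycle spectrum of the flip graph. -/
def spectrum (N : ℕ) : Set ℕ :=
  {L | ∃ (T : Triang N) (p : (flipGraph N).Walk T T), p.IsCycle ∧ p.length = L}

lemma SS_subset {n : ℕ} (hn : 1 ≤ n) : SS n ⊆ spectrum (n + 2) := by
  rintro L ⟨l, h1, h2, h3, h4, h5⟩
  have hl : l.map Phi ∈ Set.range (List.map (Subtype.val : Triang (n + 2) → _)) := by
    rw [Set.range_list_map]
    intro T hT
    rw [List.mem_map] at hT
    obtain ⟨t, ht, rfl⟩ := hT
    have := Phi_triang t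
    rw [h2 t ht] at this
    exact ⟨⟨Phi t, this⟩, rfl⟩
  obtain ⟨l', hl'⟩ := hl
  have hnd : (l.map Phi).Nodup := by
    apply List.Nodup.map_on _ h1
    intro a ha b hb hab
    exact Phi_inj (by rw [h2 a ha]; exact hn) (by rw [h2 a ha, h2 b hb]) hab
  have hch : (l.map Phi).IsChain Flip := by
    rw [List.isChain_map]
    have hc := h3.1
    rw [List.isChain_iff_getElem] at hc ⊢
    intro i hi
    exact flip_of_adj (by rw [h2 _ (List.getElem_mem _)]; exact hn) (hc i hi)
  have hlen : l'.length = L := by
    have := congrArg List.length hl'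
    simp only [List.length_map] at this
    omega
  rw [← hl'] at hnd hch
  rw [List.isChain_map] at hch
  obtain ⟨v, p, hp1, hp2⟩ := cycle_of_list (flipGraph (n + 2)) l' (List.Nodup.of_map _ hnd) hch
    (by
      intro a ha b hb
      have ha' : a.1 ∈ (l.map Phi).getLast? := by
        rw [← hl', List.getLast?_map, ha]; rfl
      have hb' : b.1 ∈ (l.map Phi).head? := by
        rw [← hl', List.head?_map, hb]; rfl
      rw [List.getLast?_map] at ha'
      rw [List.head?_map] at hb'
      simp only [Option.mem_def, Option.map_eq_some_iff] at ha' hb'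
      obtain ⟨s, hs, hs'⟩ := ha'
      obtain ⟨u, hu, hu'⟩ := hb'
      change Flip a.1 b.1
      rw [← hs', ← hu']
      exact flip_of_adj (by rw [h2 s (List.mem_of_getLast? hs)]; exact hn) (h3.2 s hs u hu))
    (by omega)
  exact ⟨v, p, hp1, by rw [hp2, hlen]⟩

lemma card_triang {n : ℕ} (hn : 1 ≤ n) : Nat.card (Triang (n + 2)) = cn n := by
  classical
  have e : {T : Finset (ℕ × ℕ) | IsTriangulation (n + 2) T} =
      (((allT n).toFinset.image Phi : Finset (Finset (ℕ × ℕ))) : Set (Finset (ℕ × ℕ))) := by
    ext T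
    simp only [Set.mem_ofPred_eq, Finset.coe_image, Set.mem_image, Finset.mem_coe,
      List.mem_toFinset, mem_allT]
    constructor
    · intro h
      obtain ⟨t, h1, h2⟩ := Phi_surj hn h
      exact ⟨t, h1, h2⟩
    · rintro ⟨t, h1, rfl⟩
      rw [← h1]
      exact Phi_triang t
  have e2 : Nat.card (Triang (n + 2)) = {T : Finset (ℕ × ℕ) | IsTriangulation (n + 2) T}.ncard :=
    rfl
  rw [e2, e, Set.ncard_coe_finset, Finset.card_image_of_injOn, List.toFinset_card_of_nodup
    (nodup_allT n)]
  · rfl
  · intro a ha b hb hab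
    simp only [Finset.mem_coe, List.mem_toFinset, mem_allT] at ha hb
    exact Phi_inj (by omega) (by omega) hab

lemma finite_triang (N : ℕ) : Finite (Triang N) := by
  have h : {T : Finset (ℕ × ℕ) | IsTriangulation N T} ⊆
      ((Finset.range N ×ˢ Finset.range N).powerset : Set (Finset (ℕ × ℕ))) := by
    intro T hT
    rw [Finset.mem_coe, Finset.mem_powerset]
    intro p hp
    have := hT.1 p hp
    unfold IsDiag at this
    rw [Finset.mem_product, Finset.mem_range, Finset.mem_range]
    omega
  exact ((Finset.finite_toSet _).subset h).to_subtype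

lemma spectrum_subset (N : ℕ) : spectrum N ⊆ Set.Icc 3 (Nat.card (Triang N)) := by
  classical
  have := finite_triang N
  have : Fintype (Triang N) := Fintype.ofFinite _
  rintro L ⟨T, p, hp, rfl⟩
  rw [Set.mem_Icc]
  refine ⟨hp.three_le_length, ?_⟩
  rw [Nat.card_eq_fintype_card]
  have h1 := hp.support_nodup.length_le_card
  rw [List.length_tail, SimpleGraph.Walk.length_support] at h1
  exact h1

end Q107.Assoc
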